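import Mathlib
import Pool.Agent.V11320.RayBad
import Pool.Agent.V11320.CubeLaw

set_option autoImplicit false
open MeasureTheory ProbabilityTheory
open scoped ENNReal NNReal BigOperators Topology

namespace Pool.Agent.Results.MP_04d7a1_pr.ContinuumRayDisproof

/-- The uniform law on the angles `[0, 2π)`. -/
noncomputable def uniformAngle : Measure ℝ :=
  ProbabilityTheory.cond volume (Set.Ico (0 : ℝ) (2 * Real.pi))

instance : IsProbabilityMeasure uniformAngle := by
  unfold uniformAngle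
  refine ProbabilityTheory.cond_isProbabilityMeasure_of_finite ?_ ?_
  · rw [Real.volume_Ico]
    have := Real.pi_pos
    simp [this]
  · rw [Real.volume_Ico]
    exact ENNReal.ofReal_ne_top

/-- The data of one segment: the position of its starting point inside its unit cell, its length
and its angle. -/
abbrev Mark : Type := (Fin 2 → unitInterval) × ℝ × ℝ

/-- The sample space. For `ω = (N, M)`, the number of starting points in the unit cell with corner
`z` is `N z`, and `M (z, i)` is the data of the `i`-th of them. -/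
abbrev Sample : Type :=
  ((Fin 2 → ℤ) → ℕ) × ((Fin 2 → ℤ) × ℕ → Mark)

/-- The law of the model: a Poisson process of intensity `v` on the plane, with independent marks.
The unit cells contain independent Poisson numbers of mean `v` of points, which are independent and
uniform in their cells; the lengths are independent of law `μ`, the angles are independent and
uniform. -/
noncomputable def stickLaw (v : ℝ≥0) (μ : ProbabilityMeasure ℝ) : Measure Sample :=
  (Measure.infinitePi (fun _ : Fin 2 → ℤ => (poissonPMF v).toMeasure)).prod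
    (Measure.infinitePi (fun _ : (Fin 2 → ℤ) × ℕ =>
      (volume : Measure (Fin 2 → unitInterval)).prod ((μ : Measure ℝ).prod uniformAngle)))

/-- The starting point of a segment. -/
def start (z : Fin 2 → ℤ) (m : Mark) : Fin 2 → ℝ := fun j => (z j : ℝ) + (m.1 j : ℝ)

/-- The direction of a segment. -/
noncomputable def dir (θ : ℝ) : Fin 2 → ℝ := ![Real.cos θ, Real.sin θ]

/-- The union of all segments from `x` to `x + L (cos θ, sin θ)`. -/
def covered (ω : Sample) : Set (Fin 2 → ℝ) :=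
  {p | ∃ z : Fin 2 → ℤ, ∃ i : ℕ, i < ω.1 z ∧
    p ∈ segment ℝ (start z (ω.2 (z, i)))
      (start z (ω.2 (z, i)) + (ω.2 (z, i)).2.1 • dir (ω.2 (z, i)).2.2)}

/-- A subset of the plane percolates if it has an unbounded connected component. -/
def Percolates (S : Set (Fin 2 → ℝ)) : Prop :=
  ∃ x ∈ S, ¬ Bornology.IsBounded (connectedComponentIn S x)

/-- The critical intensity `inf {v > 0 : P (the covered set percolates) > 0}`, in `[0, ∞]`. -/
noncomputable def lambdaC (μ : ProbabilityMeasure ℝ) : ℝ≥0∞ :=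
  ⨅ v : {v : ℝ≥0 // 0 < v ∧ 0 < stickLaw v μ {ω | Percolates (covered ω)}}, ((v : ℝ≥0) : ℝ≥0∞)

/-- the cell of a point -/
noncomputable def fl (p : Fin 2 → ℝ) : Fin 2 → ℤ := fun j => ⌊p j⌋

theorem floor_near (a b : ℝ) (n : ℕ) (h : |a - b| ≤ n) : |⌊a⌋ - ⌊b⌋| ≤ (n : ℤ) := by
  rw [abs_le] at *
  have h1 := Int.floor_le a
  have h2 := Int.lt_floor_add_one a
  have h3 := Int.floor_le b
  have h4 := Int.lt_floor_add_one b
  constructor
  · have : ((⌊b⌋ : ℤ) : ℝ) < ⌊a⌋ + n + 1 := by linarith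
    have h5 : ⌊b⌋ < ⌊a⌋ + n + 1 := by exact_mod_cast this
    linarith
  · have : ((⌊a⌋ : ℤ) : ℝ) < ⌊b⌋ + n + 1 := by linarith
    have h5 : ⌊a⌋ < ⌊b⌋ + n + 1 := by exact_mod_cast this
    linarith

theorem perc_of_percolates (S : Set (Fin 2 → ℝ)) (U : Set (H592.V 2))
    (hU : ∀ p ∈ S, ∀ z : H592.V 2, (∀ j, |z j - fl p j| ≤ 1) → z ∈ U) (h : Percolates S) :
    H592.perc U := by
  obtain ⟨x, hx, hb⟩ := h
  set C := connectedComponentIn S x with hC
  have hCS : C ⊆ S := connectedComponentIn_subset S x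
  have hxC : x ∈ C := mem_connectedComponentIn hx
  have hpre : IsPreconnected C := isPreconnected_connectedComponentIn
  refine ⟨fl x, fun hfin => hb ?_⟩
  have hconn : ∀ q ∈ C, H592.conn U (fl x) (fl q) := by
    intro q hq
    refine hpre.induction₂ (fun p q => H592.conn U (fl p) (fl q)) ?_ ?_ ?_ hxC hq
    · intro p hp
      have hev : ∀ᶠ q in 𝓝[C] p, dist q p < 1 :=
        eventually_nhdsWithin_of_eventually_nhds (Metric.ball_mem_nhds p one_pos)
      have hev2 : ∀ᶠ q in 𝓝[C] p, q ∈ C := eventually_mem_nhdsWithin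
      filter_upwards [hev, hev2] with q hq hqC
      have hq1 : ∀ j, |fl q j - fl p j| ≤ 1 := by
        intro j
        refine floor_near (q j) (p j) 1 ?_
        have h1 : dist (q j) (p j) ≤ dist q p := dist_le_pi_dist q p j
        rw [Real.dist_eq] at h1
        push_cast
        linarith
      set w : H592.V 2 := ![fl q 0, fl p 1] with hw
      have hp0 : fl p ∈ U := hU p (hCS hp) _ (by intro j; simp)
      have hq0 : fl q ∈ U := hU q (hCS hqC) _ (by intro j; simp)
      have hw0 : w ∈ U := by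
        refine hU p (hCS hp) _ ?_
        intro j
        fin_cases j
        · exact hq1 0
        · simp [hw]
      have h1 : H592.conn U (fl p) w := by
        by_cases he : fl q 0 = fl p 0
        · have : w = fl p := by
            funext j
            fin_cases j
            · exact he
            · rfl
          rw [this]
          exact Relation.ReflTransGen.refl
        · refine Relation.ReflTransGen.single ⟨hp0, hw0, ?_⟩
          unfold H592.nb
          rw [Fin.sum_univ_two]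
          have h2 := hq1 0
          have h3 : w 0 = fl q 0 := rfl
          have h4 : w 1 = fl p 1 := rfl
          rw [h3, h4, sub_self, abs_zero, add_zero, abs_sub_comm]
          have h5 : 0 < |fl q 0 - fl p 0| := abs_pos.mpr (sub_ne_zero.mpr he)
          omega
      have h2 : H592.conn U w (fl q) := by
        by_cases he : fl q 1 = fl p 1
        · have : w = fl q := by
            funext j
            fin_cases j
            · rfl
            · exact he.symm
          rw [this]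
          exact Relation.ReflTransGen.refl
        · refine Relation.ReflTransGen.single ⟨hw0, hq0, ?_⟩
          unfold H592.nb
          rw [Fin.sum_univ_two]
          have h2 := hq1 1
          have h3 : w 0 = fl q 0 := rfl
          have h4 : w 1 = fl p 1 := rfl
          rw [h3, h4, sub_self, abs_zero, zero_add, abs_sub_comm]
          have h5 : 0 < |fl q 1 - fl p 1| := abs_pos.mpr (sub_ne_zero.mpr he)
          omega
      exact h1.trans h2
    · intro a b c _ _ _ hab hbc
      exact hab.trans hbc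
    · intro a b _ _ hab
      exact H592.conn_symm hab
  -- bounded
  have hsub : C ⊆ ⋃ z ∈ {z | H592.conn U (fl x) z},
      Set.Icc (fun j => (z j : ℝ)) (fun j => (z j : ℝ) + 1) := by
    intro q hq
    rw [Set.mem_iUnion₂]
    refine ⟨fl q, hconn q hq, ?_, ?_⟩
    · intro j
      exact Int.floor_le _
    · intro j
      exact (Int.lt_floor_add_one _).le
  refine Bornology.IsBounded.subset ?_ hsub
  exact (Bornology.isBounded_biUnion hfin).mpr fun z _ => Metric.isBounded_Icc _ _

/-- the sample points of a segment -/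
noncomputable def pt (m : Mark) (i : ℕ) : Fin 2 → ℝ :=
  fun j => (m.1 j : ℝ) + (i : ℝ) * dir m.2.2 j

/-- the animal of a segment -/
noncomputable def an (m : Mark) : Finset (Fin 2 → ℤ) :=
  (Finset.range (⌈m.2.1⌉₊ + 1)).biUnion fun i => H592.Bx (fl (pt m i)) 3

theorem mem_an (m : Mark) (z : Fin 2 → ℤ) :
    z ∈ an m ↔ ∃ i ≤ ⌈m.2.1⌉₊, z ∈ H592.Bx (fl (pt m i)) 3 := by
  unfold an
  rw [Finset.mem_biUnion]
  simp only [Finset.mem_range, Nat.lt_succ_iff]

theorem dir_abs (θ : ℝ) (j : Fin 2) : |dir θ j| ≤ 1 := by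
  fin_cases j
  · exact Real.abs_cos_le_one θ
  · exact Real.abs_sin_le_one θ

theorem pt_near (m : Mark) (i k n : ℕ) (h : |(i : ℝ) - k| ≤ n) (j : Fin 2) :
    |fl (pt m i) j - fl (pt m k) j| ≤ (n : ℤ) := by
  refine floor_near _ _ n ?_
  have : pt m i j - pt m k j = ((i : ℝ) - k) * dir m.2.2 j := by
    unfold pt; ring
  rw [this, abs_mul]
  calc |(i : ℝ) - k| * |dir m.2.2 j| ≤ n * 1 :=
        mul_le_mul h (dir_abs _ _) (abs_nonneg _) (by positivity)
    _ = n := mul_one _

theorem an_meas : V11320.RayGen.MeasAn an := by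
  have hpt : ∀ (i : ℕ) (j : Fin 2), Measurable fun m : Mark => fl (pt m i) j := by
    intro i j
    unfold fl pt
    refine Int.measurable_floor.comp ?_
    have h1 : Measurable fun m : Mark => ((m.1 j : unitInterval) : ℝ) :=
      measurable_subtype_coe.comp ((measurable_pi_apply j).comp measurable_fst)
    have h2 : Measurable fun m : Mark => dir m.2.2 j := by
      fin_cases j
      · exact Real.measurable_cos.comp (measurable_snd.comp measurable_snd)
      · exact Real.measurable_sin.comp (measurable_snd.comp measurable_snd)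
    exact h1.add (h2.const_mul _)
  have hmem : ∀ z : Fin 2 → ℤ, MeasurableSet {m : Mark | z ∈ an m} := by
    intro z
    have h1 : {m : Mark | z ∈ an m}
        = ⋃ i : ℕ, ({m | i ≤ ⌈m.2.1⌉₊} ∩ ⋂ j, {m | |z j - fl (pt m i) j| ≤ (3 : ℤ)}) := by
      ext m
      simp only [Set.mem_ofPred_eq, mem_an, H592.mem_Bx, Set.mem_iUnion, Set.mem_inter_iff,
        Set.mem_iInter]
      rfl
    rw [h1]
    refine MeasurableSet.iUnion fun i => MeasurableSet.inter ?_ (MeasurableSet.iInter fun j => ?_)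
    · have h2 : Measurable fun m : Mark => ⌈m.2.1⌉₊ :=
        Nat.measurable_ceil.comp (measurable_fst.comp measurable_snd)
      exact h2 (MeasurableSet.of_discrete (s := {n : ℕ | i ≤ n}))
    · exact (hpt i j) (MeasurableSet.of_discrete (s := {n : ℤ | |z j - n| ≤ (3 : ℤ)}))
  intro A
  have h1 : {m : Mark | an m = A} = ⋂ z : Fin 2 → ℤ, {m | z ∈ an m ↔ z ∈ A} := by
    ext m
    simp only [Set.mem_ofPred_eq, Set.mem_iInter]
    exact Finset.ext_iff
  rw [h1]
  refine MeasurableSet.iInter fun z => ?_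
  by_cases hz : z ∈ A
  · simpa only [hz, iff_true] using hmem z
  · have h2 : {m : Mark | z ∈ an m ↔ z ∈ A} = {m | z ∈ an m}ᶜ := by
      ext m; simp [hz]
    rw [h2]
    exact (hmem z).compl

theorem an_zero (m : Mark) : 0 ∈ an m := by
  rw [mem_an]
  refine ⟨0, Nat.zero_le _, ?_⟩
  rw [H592.mem_Bx]
  intro j
  have h1 : pt m 0 j = (m.1 j : ℝ) := by simp [pt]
  have h2 : (0 : ℤ) ≤ fl (pt m 0) j := by
    unfold fl
    rw [h1, Int.floor_nonneg]
    exact (m.1 j).2.1
  have h3 : fl (pt m 0) j ≤ 1 := by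
    unfold fl
    rw [h1]
    have : ⌊((m.1 j : unitInterval) : ℝ)⌋ ≤ ⌊(1 : ℝ)⌋ := Int.floor_le_floor (m.1 j).2.2
    simpa using this
  simp only [Pi.zero_apply]
  rw [abs_le]
  push_cast
  constructor <;> linarith

theorem an_small (m : Mark) (r : ℕ) (h : ¬ H592.small r (an m)) : r ≤ ⌈m.2.1⌉₊ + 8 := by
  by_contra hlt
  push Not at hlt
  apply h
  intro a ha b hb j
  obtain ⟨s, hs, ha⟩ := (mem_an _ _).mp ha
  obtain ⟨t, ht, hb⟩ := (mem_an _ _).mp hb
  rw [H592.mem_Bx] at ha hb
  have h1 := ha j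
  have h2 := hb j
  have h3 : |fl (pt m s) j - fl (pt m t) j| ≤ ((⌈m.2.1⌉₊ : ℕ) : ℤ) := by
    refine pt_near m s t _ ?_ j
    have hs' : (s : ℝ) ≤ (⌈m.2.1⌉₊ : ℕ) := by exact_mod_cast hs
    have ht' : (t : ℝ) ≤ (⌈m.2.1⌉₊ : ℕ) := by exact_mod_cast ht
    have hs0 : (0 : ℝ) ≤ s := by positivity
    have ht0 : (0 : ℝ) ≤ t := by positivity
    rw [abs_le]
    constructor <;> linarith
  have h4 : ((⌈m.2.1⌉₊ : ℕ) : ℤ) + 8 < r := by exact_mod_cast hlt
  rw [abs_le] at h1 h2 h3
  rw [abs_lt]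
  push_cast at h1 h2
  constructor <;> linarith [h1.1, h1.2, h2.1, h2.2, h3.1, h3.2]

theorem an_cover (m : Mark) (r : ℕ) (hr : 1 ≤ r) :
    ∃ a : ℕ → H592.V 2, ∀ z ∈ an m, ∃ j ≤ (⌈m.2.1⌉₊ + 8) / r, z ∈ H592.Bx (a j) (4 * r) := by
  refine ⟨fun j => fl (pt m (j * r)), fun z hz => ?_⟩
  obtain ⟨s, hs, hz⟩ := (mem_an _ _).mp hz
  refine ⟨s / r, Nat.div_le_div_right (by omega), ?_⟩
  rw [H592.mem_Bx] at *
  intro i
  have h1 := Nat.div_add_mod s r
  have h2 := Nat.mod_lt s (by omega : r > 0)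
  have h3 : s / r * r = r * (s / r) := mul_comm _ _
  have h5 : s = s / r * r + s % r := by omega
  have h6 : |(s : ℝ) - ((s / r * r : ℕ) : ℝ)| ≤ (r : ℕ) := by
    have h7 : (s : ℝ) - ((s / r * r : ℕ) : ℝ) = ((s % r : ℕ) : ℝ) := by
      have : (s : ℝ) = ((s / r * r + s % r : ℕ) : ℝ) := by rw [← h5]
      rw [Nat.cast_add] at this
      linarith
    rw [h7, abs_of_nonneg (by positivity)]
    exact_mod_cast h2.le
  have h7 := pt_near m s (s / r * r) r h6 i
  have h8 := hz i
  have h9 : (1 : ℤ) ≤ r := by exact_mod_cast hr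
  rw [abs_le] at *
  push_cast at *
  constructor <;> linarith [h7.1, h7.2, h8.1, h8.2]

theorem fl_add (z : Fin 2 → ℤ) (p : Fin 2 → ℝ) : fl (fun j => (z j : ℝ) + p j) = z + fl p := by
  funext j
  unfold fl
  simp

theorem mem_occ (ω : Sample) (p : Fin 2 → ℝ) (hp : p ∈ covered ω) (w : H592.V 2)
    (hw : ∀ j, |w j - fl p j| ≤ 1) (hpos : ∀ k, 0 ≤ (ω.2 k).2.1) :
    w ∈ V11320.RayGen.occM an ω := by
  obtain ⟨z, i, hi, hp⟩ := hp
  refine ⟨z, i, hi, ?_⟩
  set m := ω.2 (z, i) with hm
  have hL : 0 ≤ m.2.1 := hpos _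
  rw [segment_eq_image'] at hp
  obtain ⟨t, ⟨ht0, ht1⟩, rfl⟩ := hp
  rw [mem_an]
  -- nearest sample point
  have htL0 : 0 ≤ t * m.2.1 := mul_nonneg ht0 hL
  have hfl := Nat.floor_le htL0
  have hlt := Nat.lt_floor_add_one (t * m.2.1)
  refine ⟨⌊t * m.2.1⌋₊, ?_, ?_⟩
  · have h1 : t * m.2.1 ≤ m.2.1 := by nlinarith
    exact (Nat.floor_le_floor h1).trans (Nat.floor_le_ceil _)
  · rw [H592.mem_Bx]
    intro j
    have h1 := hw j
    have h2 : |fl (start z m + t • (start z m + m.2.1 • dir m.2.2 - start z m)) j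
        - (z + fl (pt m ⌊t * m.2.1⌋₊)) j| ≤ (1 : ℕ) := by
      rw [← fl_add]
      refine floor_near _ _ 1 ?_
      have h3 : (start z m + t • (start z m + m.2.1 • dir m.2.2 - start z m)) j
          - ((z j : ℝ) + pt m ⌊t * m.2.1⌋₊ j)
          = (t * m.2.1 - (⌊t * m.2.1⌋₊ : ℝ)) * dir m.2.2 j := by
        simp only [start, pt, Pi.add_apply, Pi.smul_apply, Pi.sub_apply, smul_eq_mul]
        ring
      rw [h3, abs_mul]
      calc |t * m.2.1 - (⌊t * m.2.1⌋₊ : ℝ)| * |dir m.2.2 j| ≤ 1 * 1 := by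
            refine mul_le_mul ?_ (dir_abs _ _) (abs_nonneg _) zero_le_one
            rw [abs_le]
            constructor <;> linarith
        _ = ((1 : ℕ) : ℝ) := by norm_num
    simp only [Pi.add_apply] at h2
    simp only [Pi.sub_apply]
    rw [abs_le] at *
    push_cast at *
    constructor <;> linarith [h1.1, h1.2, h2.1, h2.2]

/-- the law of the length -/
noncomputable def lenLaw : ProbabilityMeasure ℝ :=
  ⟨(V11320.CubeLaw.law).toMeasure.map (fun n : ℕ => (n : ℝ) + 1),
    Measure.isProbabilityMeasure_map (Measurable.of_discrete).aemeasurable⟩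

theorem lenLaw_lintegral (f : ℝ → ℝ≥0∞) (hf : Measurable f) :
    ∫⁻ x, f x ∂(lenLaw : Measure ℝ) = ∑' n : ℕ, f ((n : ℝ) + 1) * V11320.CubeLaw.law n := by
  show ∫⁻ x, f x ∂((V11320.CubeLaw.law).toMeasure.map (fun n : ℕ => (n : ℝ) + 1)) = _
  rw [lintegral_map hf Measurable.of_discrete, lintegral_countable']
  refine tsum_congr fun n => ?_
  rw [PMF.toMeasure_apply_singleton _ _ (MeasurableSet.singleton _)]

theorem lenLaw_pos : (lenLaw : Measure ℝ) (Set.Ioi 0) = 1 := by
  show ((V11320.CubeLaw.law).toMeasure.map (fun n : ℕ => (n : ℝ) + 1)) (Set.Ioi 0) = 1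
  rw [Measure.map_apply Measurable.of_discrete measurableSet_Ioi]
  have : (fun n : ℕ => (n : ℝ) + 1) ⁻¹' Set.Ioi 0 = Set.univ := by
    ext n
    simp only [Set.mem_preimage, Set.mem_Ioi, Set.mem_univ, iff_true]
    positivity
  rw [this, measure_univ]

theorem lenLaw_moment : ∫⁻ x, ENNReal.ofReal (x ^ 2) ∂(lenLaw : Measure ℝ) = ⊤ := by
  rw [lenLaw_lintegral _ (by fun_prop), ← V11320.CubeLaw.second_moment]
  refine tsum_congr fun n => ?_
  rw [ENNReal.ofReal_pow (by positivity), ENNReal.ofReal_add (by positivity) (by positivity),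
    ENNReal.ofReal_natCast, ENNReal.ofReal_one]

theorem tail (r : ℕ) (hr : 1 ≤ r) :
    (r : ℝ≥0∞) * ∫⁻ m : Mark, (if r ≤ ⌈m.2.1⌉₊ + 8 then ((⌈m.2.1⌉₊ + 8 : ℕ) : ℝ≥0∞) else 0)
      ∂((volume : Measure (Fin 2 → unitInterval)).prod ((lenLaw : Measure ℝ).prod uniformAngle))
      ≤ 100 * V11320.CubeLaw.cc + 81 := by
  have hmf : Measurable fun x : ℝ => (if r ≤ ⌈x⌉₊ + 8 then ((⌈x⌉₊ + 8 : ℕ) : ℝ≥0∞) else 0) := by
    have h1 : Measurable fun n : ℕ => (if r ≤ n + 8 then ((n + 8 : ℕ) : ℝ≥0∞) else 0) :=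
      measurable_from_nat
    exact h1.comp Nat.measurable_ceil
  have h1 : ∫⁻ m : Mark, (if r ≤ ⌈m.2.1⌉₊ + 8 then ((⌈m.2.1⌉₊ + 8 : ℕ) : ℝ≥0∞) else 0)
      ∂((volume : Measure (Fin 2 → unitInterval)).prod ((lenLaw : Measure ℝ).prod uniformAngle))
      = ∑' n : ℕ, (if r ≤ n + 9 then ((n + 9 : ℕ) : ℝ≥0∞) else 0) * V11320.CubeLaw.law n := by
    have hm1 : Measurable fun m : Mark =>
        (if r ≤ ⌈m.2.1⌉₊ + 8 then ((⌈m.2.1⌉₊ + 8 : ℕ) : ℝ≥0∞) else 0) :=
      hmf.comp (measurable_fst.comp measurable_snd)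
    have hm2 : Measurable fun m : ℝ × ℝ =>
        (if r ≤ ⌈m.1⌉₊ + 8 then ((⌈m.1⌉₊ + 8 : ℕ) : ℝ≥0∞) else 0) :=
      hmf.comp measurable_fst
    rw [lintegral_prod _ hm1.aemeasurable]
    simp only [lintegral_const, measure_univ, mul_one]
    rw [lintegral_prod _ hm2.aemeasurable]
    simp only [lintegral_const, measure_univ, mul_one]
    rw [lenLaw_lintegral _ hmf]
    refine tsum_congr fun n => ?_
    have h2 : ⌈(n : ℝ) + 1⌉₊ = n + 1 := by
      have : (n : ℝ) + 1 = ((n + 1 : ℕ) : ℝ) := by push_cast; ring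
      rw [this, Nat.ceil_natCast]
    rw [h2]
  rw [h1]
  set r' : ℕ := (r + 9) / 10 with hr'
  have hr'1 : 1 ≤ r' := by omega
  have hterm : ∀ n : ℕ, (if r ≤ n + 9 then ((n + 9 : ℕ) : ℝ≥0∞) else 0) * V11320.CubeLaw.law n
      ≤ 10 * ((if r' ≤ n then (n : ℝ≥0∞) else 0) * V11320.CubeLaw.law n)
        + (if n = 0 ∧ r ≤ 9 then (9 : ℝ≥0∞) else 0) := by
    intro n
    have hlaw : V11320.CubeLaw.law n ≤ 1 := PMF.coe_le_one _ n
    rcases Nat.eq_zero_or_pos n with h0 | h0
    · subst h0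
      by_cases h9 : r ≤ 9
      · have e1 : (if r ≤ 0 + 9 then ((0 + 9 : ℕ) : ℝ≥0∞) else 0) = 9 := by
          rw [if_pos (by omega)]
          norm_num
        have e2 : (if (0 : ℕ) = 0 ∧ r ≤ 9 then (9 : ℝ≥0∞) else 0) = 9 := if_pos ⟨rfl, h9⟩
        rw [e1, e2]
        calc 9 * V11320.CubeLaw.law 0 ≤ 9 * 1 := by gcongr
          _ ≤ _ := by rw [mul_one]; exact le_add_self
      · rw [if_neg (by omega)]
        simp
    · by_cases h9 : r ≤ n + 9
      · rw [if_pos h9, if_pos (by omega : r' ≤ n), ← mul_assoc]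
        refine le_add_right ?_
        gcongr
        have : n + 9 ≤ 10 * n := by omega
        exact_mod_cast this
      · rw [if_neg h9]
        simp
  have h3 := V11320.CubeLaw.tail_bound r' hr'1
  calc (r : ℝ≥0∞) * ∑' n : ℕ, (if r ≤ n + 9 then ((n + 9 : ℕ) : ℝ≥0∞) else 0) * V11320.CubeLaw.law n
      ≤ (r : ℝ≥0∞) * ∑' n : ℕ, (10 * ((if r' ≤ n then (n : ℝ≥0∞) else 0) * V11320.CubeLaw.law n)
        + (if n = 0 ∧ r ≤ 9 then (9 : ℝ≥0∞) else 0)) := by
        gcongr with n
        exact hterm n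
    _ = (r : ℝ≥0∞) * 10 * (∑' n : ℕ, (if r' ≤ n then (n : ℝ≥0∞) else 0) * V11320.CubeLaw.law n)
        + (r : ℝ≥0∞) * ∑' n : ℕ, (if n = 0 ∧ r ≤ 9 then (9 : ℝ≥0∞) else 0) := by
        rw [ENNReal.tsum_add, ENNReal.tsum_mul_left, mul_add, mul_assoc]
    _ ≤ (10 * r' : ℕ) * 10 *
          (∑' n : ℕ, (if r' ≤ n then (n : ℝ≥0∞) else 0) * V11320.CubeLaw.law n) + 81 := by
        refine add_le_add ?_ ?_
        · gcongr
          omega
        · rw [tsum_eq_single 0 (fun n hn => by rw [if_neg (fun h => hn h.1)])]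
          by_cases h9 : r ≤ 9
          · rw [if_pos ⟨rfl, h9⟩]
            calc (r : ℝ≥0∞) * 9 ≤ 9 * 9 := by
                  gcongr
                  exact_mod_cast h9
              _ = 81 := by norm_num
          · rw [if_neg (fun h => h9 h.2), mul_zero]
            exact zero_le
    _ = 100 * ((r' : ℝ≥0∞) *
          ∑' n : ℕ, (if r' ≤ n then (n : ℝ≥0∞) else 0) * V11320.CubeLaw.law n) + 81 := by
        push_cast
        ring
    _ ≤ _ := by gcongr

/-- There is a law of the length `L > 0` with infinite second moment for which the critical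
intensity of planar continuum ray percolation is strictly positive. -/
theorem result :
    ∃ μ : ProbabilityMeasure ℝ, (μ : Measure ℝ) (Set.Ioi 0) = 1 ∧
      ∫⁻ x, ENNReal.ofReal (x ^ 2) ∂(μ : Measure ℝ) = ⊤ ∧ 0 < lambdaC μ := by
  refine ⟨lenLaw, lenLaw_pos, lenLaw_moment, ?_⟩
  obtain ⟨v, hv, hmain⟩ := V11320.RayGen.criterion
    ((volume : Measure (Fin 2 → unitInterval)).prod ((lenLaw : Measure ℝ).prod uniformAngle)) an
    an_meas (fun m => ⌈m.2.1⌉₊ + 8) an_zero (fun m r _ h => an_small m r h) an_cover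
    (100 * V11320.CubeLaw.cc + 81)
    (ENNReal.add_ne_top.mpr ⟨ENNReal.mul_ne_top (by simp) V11320.CubeLaw.cc_ne_top, by simp⟩)
    (fun r hr => tail r hr)
  have key : ∀ w : ℝ≥0, (w : ℝ) ≤ v →
      stickLaw w lenLaw {ω | Percolates (covered ω)} = 0 := by
    intro w hw
    have hnull : stickLaw w lenLaw {ω | ∃ k, (ω.2 k).2.1 < 0} = 0 := by
      have h1 : {ω : Sample | ∃ k, (ω.2 k).2.1 < 0} = ⋃ k, {ω | (ω.2 k).2.1 < 0} := by
        ext ω; simp
      rw [h1, measure_iUnion_null_iff]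
      intro k
      have h2 : {ω : Sample | (ω.2 k).2.1 < 0}
          = Set.univ ×ˢ ((fun M : (Fin 2 → ℤ) × ℕ → Mark => M k) ⁻¹'
            {m : Mark | m.2.1 < 0}) := by
        ext ω; simp
      have h3 : MeasurableSet {m : Mark | m.2.1 < 0} :=
        (measurable_fst.comp measurable_snd) measurableSet_Iio
      have h4 : {m : Mark | m.2.1 < 0} = Set.univ ×ˢ (Set.Iio 0 ×ˢ Set.univ) := by
        ext m; simp
      unfold stickLaw
      rw [h2, Measure.prod_prod, ← Measure.map_apply (measurable_pi_apply k) h3,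
        Measure.infinitePi_map_eval, h4, Measure.prod_prod, Measure.prod_prod]
      have h5 : (lenLaw : Measure ℝ) (Set.Iio 0) = 0 := by
        have h6 := prob_compl_eq_one_sub (μ := (lenLaw : Measure ℝ)) (measurableSet_Ioi (a := (0:ℝ)))
        rw [lenLaw_pos, tsub_self] at h6
        refine measure_mono_null ?_ h6
        intro x hx
        simp only [Set.mem_compl_iff, Set.mem_Ioi, not_lt]
        exact le_of_lt hx
      rw [h5]
      simp
    have hsub : {ω : Sample | Percolates (covered ω)}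
        ⊆ {ω | H592.perc (V11320.RayGen.occM an ω)} ∪ {ω | ∃ k, (ω.2 k).2.1 < 0} := by
      intro ω hω
      by_cases hk : ∃ k, (ω.2 k).2.1 < 0
      · exact Or.inr hk
      · left
        push Not at hk
        exact perc_of_percolates _ _ (fun p hp z hz => mem_occ ω p hp z hz hk) hω
    exact measure_mono_null hsub (measure_union_null (hmain w hw) hnull)
  refine lt_of_lt_of_le (ENNReal.ofReal_pos.mpr hv) (le_iInf ?_)
  rintro ⟨w, hw0, hw⟩
  by_contra hlt
  push Not at hlt
  have hwv : (w : ℝ) ≤ v := by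
    have h1 : (w : ℝ≥0∞) ≤ ENNReal.ofReal v := hlt.le
    have h2 := ENNReal.toReal_mono ENNReal.ofReal_ne_top h1
    rwa [ENNReal.toReal_ofReal hv.le, ENNReal.coe_toReal] at h2
  rw [key w hwv] at hw
  exact lt_irrefl _ hw

end Pool.Agent.Results.MP_04d7a1_pr.ContinuumRayDisproof
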