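import Mathlib
import Pool.Agent.V11320.RayBad
import Pool.Agent.V11320.CubeLaw

set_option autoImplicit false
open MeasureTheory ProbabilityTheory
open scoped ENNReal NNReal BigOperators

namespace Pool.Agent.Results.MP_04d7a1_pr.LatticeRayDisproof

/-- The nearest-neighbour graph of the square lattice. -/
def squareLattice : SimpleGraph (Fin 2 → ℤ) where
  Adj a b := ∑ j, |a j - b j| = 1
  symm := ⟨fun a b h => by
    rw [← h]
    exact Finset.sum_congr rfl fun j _ => abs_sub_comm _ _⟩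
  loopless := ⟨fun a h => by simp at h⟩

/-- A set of vertices percolates if the subgraph of the square lattice it induces has an infinite
connected component. -/
def Percolates (S : Set (Fin 2 → ℤ)) : Prop :=
  ∃ C : (squareLattice.induce S).ConnectedComponent, C.supp.Infinite

/-- The sample space. For `ω = (N, M)`, the number of animals at `x` is `N x`, and
`M (x, i) = (L, e)` is the number of steps `L` and the direction `e` of the `i`-th animal at `x`. -/
abbrev Sample : Type :=
  ((Fin 2 → ℤ) → ℕ) × ((Fin 2 → ℤ) × ℕ → ℕ × Fin 4)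

/-- The law of the model: independent Poisson numbers of mean `v`, and independent animals, each
with a length of law `m` and an independent uniform direction. -/
noncomputable def rayLaw (v : ℝ≥0) (m : PMF ℕ) : Measure Sample :=
  (Measure.infinitePi (fun _ : Fin 2 → ℤ => (poissonPMF v).toMeasure)).prod
    (Measure.infinitePi (fun _ : (Fin 2 → ℤ) × ℕ =>
      m.toMeasure.prod (PMF.uniformOfFintype (Fin 4)).toMeasure))

/-- The four unit vectors `e₁, -e₁, e₂, -e₂`. -/
def unitVec : Fin 4 → (Fin 2 → ℤ) := ![![1, 0], ![-1, 0], ![0, 1], ![0, -1]]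

/-- The union of the rays `{x, x + e, ..., x + L e}` of all animals. -/
def occupied (ω : Sample) : Set (Fin 2 → ℤ) :=
  {z | ∃ x : Fin 2 → ℤ, ∃ i : ℕ, i < ω.1 x ∧ ∃ j : ℕ, j ≤ (ω.2 (x, i)).1 ∧
    z = x + (j : ℤ) • unitVec (ω.2 (x, i)).2}

/-- The critical intensity `inf {v > 0 : P (the occupied set percolates) > 0}`, in `[0, ∞]`. -/
noncomputable def lambdaC (m : PMF ℕ) : ℝ≥0∞ :=
  ⨅ v : {v : ℝ≥0 // 0 < v ∧ 0 < rayLaw v m {ω | Percolates (occupied ω)}}, ((v : ℝ≥0) : ℝ≥0∞)

theorem perc_of_percolates (S : Set (Fin 2 → ℤ)) (h : Percolates S) : H592.perc S := by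
  obtain ⟨C, hC⟩ := h
  induction C using SimpleGraph.ConnectedComponent.ind with
  | h v =>
    refine ⟨v.1, ?_⟩
    refine Set.Infinite.mono ?_ (hC.image Subtype.val_injective.injOn)
    rintro _ ⟨z, hz, rfl⟩
    have hr : (squareLattice.induce S).Reachable v z := by
      rw [SimpleGraph.ConnectedComponent.mem_supp_iff, SimpleGraph.ConnectedComponent.eq] at hz
      exact hz.symm
    rw [SimpleGraph.reachable_iff_reflTransGen] at hr
    show H592.conn S v.1 z.1
    clear hz
    induction hr with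
    | refl => exact Relation.ReflTransGen.refl
    | tail _ h2 ih =>
      rename_i y z _
      exact Relation.ReflTransGen.tail ih ⟨y.2, z.2, h2⟩

/-- the animal as a finite set -/
def an (p : ℕ × Fin 4) : Finset (Fin 2 → ℤ) :=
  (Finset.range (p.1 + 1)).image fun j : ℕ => (j : ℤ) • unitVec p.2

theorem mem_an (p : ℕ × Fin 4) (z : Fin 2 → ℤ) :
    z ∈ an p ↔ ∃ j : ℕ, j ≤ p.1 ∧ (j : ℤ) • unitVec p.2 = z := by
  unfold an
  rw [Finset.mem_image]
  simp only [Finset.mem_range, Nat.lt_succ_iff]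

theorem occupied_eq (ω : Sample) : occupied ω = V11320.RayGen.occM an ω := by
  ext z
  constructor
  · rintro ⟨x, i, hi, j, hj, rfl⟩
    refine ⟨x, i, hi, (mem_an _ _).mpr ⟨j, hj, ?_⟩⟩
    abel
  · rintro ⟨x, i, hi, hz⟩
    obtain ⟨j, hj, he⟩ := (mem_an _ _).mp hz
    refine ⟨x, i, hi, j, hj, ?_⟩
    rw [he]
    abel

theorem unitVec_abs (e : Fin 4) (i : Fin 2) : |unitVec e i| ≤ 1 := by
  fin_cases e <;> fin_cases i <;> simp [unitVec]

theorem an_diff (e : Fin 4) (a b : ℤ) (i : Fin 2) :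
    |(a • unitVec e) i - (b • unitVec e) i| ≤ |a - b| := by
  have h : (a • unitVec e) i - (b • unitVec e) i = (a - b) * unitVec e i := by
    simp only [Pi.smul_apply, smul_eq_mul]
    ring
  rw [h, abs_mul]
  calc |a - b| * |unitVec e i| ≤ |a - b| * 1 :=
        mul_le_mul_of_nonneg_left (unitVec_abs e i) (abs_nonneg _)
    _ = _ := mul_one _

theorem an_small (p : ℕ × Fin 4) (r : ℕ) (h : ¬ H592.small r (an p)) : r ≤ p.1 := by
  by_contra hlt
  push Not at hlt
  apply h
  intro a ha b hb j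
  obtain ⟨s, hs, rfl⟩ := (mem_an _ _).mp ha
  obtain ⟨t, ht, rfl⟩ := (mem_an _ _).mp hb
  refine (an_diff _ _ _ _).trans_lt ?_
  rw [abs_lt]
  constructor <;> omega

theorem an_cover (p : ℕ × Fin 4) (r : ℕ) (hr : 1 ≤ r) :
    ∃ a : ℕ → H592.V 2, ∀ z ∈ an p, ∃ j ≤ p.1 / r, z ∈ H592.Bx (a j) (4 * r) := by
  refine ⟨fun j => ((j * r : ℕ) : ℤ) • unitVec p.2, fun z hz => ?_⟩
  obtain ⟨s, hs, rfl⟩ := (mem_an _ _).mp hz
  refine ⟨s / r, Nat.div_le_div_right hs, ?_⟩
  rw [H592.mem_Bx]
  intro i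
  refine (an_diff _ _ _ _).trans ?_
  have h1 := Nat.div_add_mod s r
  have h2 := Nat.mod_lt s (by omega : r > 0)
  have h3 : s / r * r = r * (s / r) := mul_comm _ _
  have h4 : (0 : ℤ) ≤ (s : ℤ) % (r : ℤ) := Int.emod_nonneg _ (by omega)
  have h5 : (0 : ℤ) ≤ r := by positivity
  rw [abs_le]
  constructor <;> (push_cast; zify at h1 h2 h3; linarith)

theorem length_tail (m : PMF ℕ) (r : ℕ) :
    ∫⁻ p : ℕ × Fin 4, (if r ≤ p.1 then (p.1 : ℝ≥0∞) else 0)
      ∂(m.toMeasure.prod (PMF.uniformOfFintype (Fin 4)).toMeasure)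
      = ∑' n : ℕ, (if r ≤ n then (n : ℝ≥0∞) else 0) * m n := by
  rw [lintegral_prod _ (Measurable.of_discrete).aemeasurable]
  simp only [lintegral_const, measure_univ, mul_one]
  rw [lintegral_countable']
  refine tsum_congr fun n => ?_
  rw [PMF.toMeasure_apply_singleton _ _ (MeasurableSet.singleton _)]

/-- There is a law of the length `L` for which the second moment of the number `L + 1` of vertices
of the ray animal is infinite, and yet the critical intensity of planar ray percolation on the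
square lattice is strictly positive. -/
theorem result :
    ∃ m : PMF ℕ, ∑' n : ℕ, ((n : ℝ≥0∞) + 1) ^ 2 * m n = ⊤ ∧ 0 < lambdaC m := by
  refine ⟨V11320.CubeLaw.law, V11320.CubeLaw.second_moment, ?_⟩
  obtain ⟨v, hv, hmain⟩ := V11320.RayGen.criterion
    ((V11320.CubeLaw.law).toMeasure.prod (PMF.uniformOfFintype (Fin 4)).toMeasure) an
    (fun A => MeasurableSet.of_discrete) (fun p => p.1)
    (fun p => (mem_an _ _).mpr ⟨0, Nat.zero_le _, by simp⟩)
    (fun p r _ h => an_small p r h) an_cover V11320.CubeLaw.cc V11320.CubeLaw.cc_ne_top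
    (fun r hr => by
      rw [length_tail]
      exact V11320.CubeLaw.tail_bound r hr)
  have key : ∀ w : ℝ≥0, (w : ℝ) ≤ v →
      rayLaw w V11320.CubeLaw.law {ω | Percolates (occupied ω)} = 0 := by
    intro w hw
    refine measure_mono_null ?_ (hmain w hw)
    intro ω hω
    have h1 := perc_of_percolates _ hω
    rw [occupied_eq] at h1
    exact h1
  refine lt_of_lt_of_le (ENNReal.ofReal_pos.mpr hv) (le_iInf ?_)
  rintro ⟨w, hw0, hw⟩
  by_contra hlt
  push Not at hlt
  have hwv : (w : ℝ) ≤ v := by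
    have h1 : (w : ℝ≥0∞) ≤ ENNReal.ofReal v := hlt.le
    have h2 := ENNReal.toReal_mono ENNReal.ofReal_ne_top h1
    rwa [ENNReal.toReal_ofReal hv.le, ENNReal.coe_toReal] at h2
  rw [key w hwv] at hw
  exact lt_irrefl _ hw

end Pool.Agent.Results.MP_04d7a1_pr.LatticeRayDisproof
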